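import Pool.Agent.Helper6.EC_B.Basic

/-!
# MP_ecc237_nt, Part B: the averages of `N` (packets GMG and GMB)
-/

open MeasureTheory Filter Topology Set

noncomputable section

namespace EC237.PB

namespace GM

/-- Tonelli. -/
theorem key (w c inner : ℝ → ℝ) (hw : Measurable w) (hw0 : ∀ q, 0 < q → 0 ≤ w q)
    (hwi : ∀ z, 0 < z → IntegrableOn w (Ioi z)) (hc : Measurable c) (hc0 : ∀ s, 0 < c s)
    (hH : Measurable (fun s => ∫ q in Ioi (c s), w q))
    (hi : Measurable inner) (hi0 : ∀ q, 0 < q → 0 ≤ inner q)
    (hin : ∀ q, 0 < q → ∫⁻ s in Ioi (0:ℝ), (if c s < q then ENNReal.ofReal (Real.exp (-s)) else 0)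
      = ENNReal.ofReal (inner q)) :
    ∫ s in Ioi (0:ℝ), Real.exp (-s) * (∫ q in Ioi (c s), w q) =
      ∫ q in Ioi (0:ℝ), inner q * w q := by
  have hH0 : ∀ s, 0 ≤ ∫ q in Ioi (c s), w q := fun s =>
    setIntegral_nonneg measurableSet_Ioi fun q hq => hw0 q ((hc0 s).trans hq)
  rw [integral_eq_lintegral_of_nonneg_ae, integral_eq_lintegral_of_nonneg_ae]
  · congr 1
    have h1 : ∀ s : ℝ, ENNReal.ofReal (Real.exp (-s) * (∫ q in Ioi (c s), w q)) =
        ∫⁻ q in Ioi (0:ℝ), (if c s < q then ENNReal.ofReal (Real.exp (-s)) *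
          ENNReal.ofReal (w q) else 0) := by
      intro s
      rw [ENNReal.ofReal_mul (Real.exp_pos _).le, ofReal_integral_eq_lintegral_ofReal
        (hwi _ (hc0 s)), ← lintegral_const_mul _ hw.ennreal_ofReal]
      · have h2 : ∀ q : ℝ, (if c s < q then ENNReal.ofReal (Real.exp (-s)) *
            ENNReal.ofReal (w q) else 0) = (Ioi (c s)).indicator
            (fun q => ENNReal.ofReal (Real.exp (-s)) * ENNReal.ofReal (w q)) q := by
          intro q
          rw [Set.indicator_apply]
          rfl
        rw [lintegral_congr h2, setLIntegral_indicator measurableSet_Ioi]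
        congr 2
        rw [Set.Ioi_inter_Ioi, sup_of_le_left (hc0 s).le]
      · filter_upwards [ae_restrict_mem measurableSet_Ioi] with q hq
        exact hw0 q ((hc0 s).trans hq)
    rw [lintegral_congr h1, lintegral_lintegral_swap]
    · refine setLIntegral_congr_fun measurableSet_Ioi fun q hq => ?_
      have hq' : (0:ℝ) < q := hq
      rw [ENNReal.ofReal_mul (hi0 q hq'), ← hin q hq', ← lintegral_mul_const']
      · refine lintegral_congr fun s => ?_
        split_ifs
        · rfl
        · rw [zero_mul]
      · exact ENNReal.ofReal_ne_top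
    · refine Measurable.aemeasurable ?_
      refine Measurable.ite (measurableSet_lt (hc.comp measurable_fst) measurable_snd) ?_
        measurable_const
      fun_prop
  · filter_upwards [ae_restrict_mem measurableSet_Ioi] with q hq
    exact mul_nonneg (hi0 q hq) (hw0 q hq)
  · exact (hi.mul hw).aestronglyMeasurable
  · filter_upwards with s
    exact mul_nonneg (Real.exp_pos _).le (hH0 s)
  · have : Measurable (fun s : ℝ => Real.exp (-s) * ∫ q in Ioi (c s), w q) :=
      (by fun_prop : Measurable (fun s : ℝ => Real.exp (-s))).mul hH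
    exact this.aestronglyMeasurable

end GM

namespace PkGMG

theorem thm (repg : G_REPG) (was : G_WAS) (nas : G_NAS) : G_GMG := by
  intro y
  obtain ⟨hWm, hW0, -⟩ := was
  obtain ⟨hint, hNm, -, -, -⟩ := nas
  have ht : 0 < tt y := by unfold tt; positivity
  set t := tt y with htdef
  have hyp : Measurable (fun a : ℝ => Nf (y + a)) := hNm.comp (by fun_prop)
  rw [rho_integral _ hyp]
  set c : ℝ → ℝ := fun s => Real.exp (-(2 * (y + (Real.log s + gam) / 2)) - gam) with hcdef
  have hck : ∀ s, 0 < s → c s = t ^ 2 / (4 * s) := by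
    intro s hs
    have h1 : c s = Real.exp (-(2 * (gam + y))) / s := by
      rw [eq_div_iff hs.ne']
      nth_rewrite 2 [← Real.exp_log hs]
      rw [hcdef, ← Real.exp_add]
      congr 1
      ring
    rw [h1, htdef, tt, mul_pow, ← Real.exp_nat_mul]
    have h2 : ((2:ℕ):ℝ) * (-gam - y) = -(2 * (gam + y)) := by push_cast; ring
    rw [h2]
    field_simp
    norm_num
  have hkey := GM.key (fun q => Wf q / (2 * q)) c (fun q => Real.exp (-(t ^ 2 / (4 * q))))
    (by fun_prop) (fun q hq => div_nonneg (hW0 q) (by linarith)) hint (by fun_prop)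
    (fun s => Real.exp_pos _) (hyp.comp rho_map_meas) (by fun_prop)
    (fun q _ => (Real.exp_pos _).le) (fun q hq => by
      have h2 : ∀ s ∈ Ioi (0:ℝ), (if c s < q then ENNReal.ofReal (Real.exp (-s)) else 0) =
          (Ioi (t ^ 2 / (4 * q))).indicator (fun s => ENNReal.ofReal (Real.exp (-s))) s := by
        intro s hs
        have hs' : (0:ℝ) < s := hs
        rw [Set.indicator_apply, hck s hs']
        have h3 : t ^ 2 / (4 * s) < q ↔ s ∈ Ioi (t ^ 2 / (4 * q)) := by
          rw [Set.mem_Ioi, div_lt_iff₀ (by linarith), div_lt_iff₀ (by linarith)]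
          constructor <;> intro h <;> nlinarith
        simp only [h3]
      rw [setLIntegral_congr_fun measurableSet_Ioi h2, setLIntegral_indicator measurableSet_Ioi,
        Set.Ioi_inter_Ioi, sup_of_le_left (by positivity),
        ← ofReal_integral_eq_lintegral_ofReal (integrableOn_exp_neg_Ioi _)
          (by filter_upwards with s using (Real.exp_pos _).le), integral_exp_neg_Ioi])
  rw [← (repg t ht).2, ← hkey]
  rfl

end PkGMG

namespace PkGMB

theorem thm (repb : G_REPB) (was : G_WAS) (nas : G_NAS) : G_GMB := by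
  intro y
  obtain ⟨hWm, hW0, -⟩ := was
  obtain ⟨hint, hNm, -, -, -⟩ := nas
  set x := Real.exp y with hxdef
  have hx : 0 < x := Real.exp_pos y
  have hyp : Measurable (fun a : ℝ => Nf (y - a)) := hNm.comp (by fun_prop)
  rw [rho_integral _ hyp]
  set c : ℝ → ℝ := fun s => Real.exp (-(2 * (y - (Real.log s + gam) / 2)) - gam) with hcdef
  have hck : ∀ s, 0 < s → c s = s / x ^ 2 := by
    intro s hs
    rw [eq_div_iff (by positivity)]
    nth_rewrite 2 [← Real.exp_log hs]
    rw [hcdef, hxdef, ← Real.exp_nat_mul, ← Real.exp_add]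
    congr 1
    push_cast
    ring
  have hkey := GM.key (fun q => Wf q / (2 * q)) c (fun q => 1 - Real.exp (-(x ^ 2 * q)))
    (by fun_prop) (fun q hq => div_nonneg (hW0 q) (by linarith)) hint (by fun_prop)
    (fun s => Real.exp_pos _) (hyp.comp rho_map_meas) (by fun_prop)
    (fun q hq => by
      have : Real.exp (-(x ^ 2 * q)) ≤ 1 := Real.exp_le_one_iff.mpr (by
        have : 0 < x ^ 2 * q := by positivity
        linarith)
      linarith) (fun q hq => by
      have hxq : 0 < x ^ 2 * q := by positivity
      have h2 : ∀ s ∈ Ioi (0:ℝ), (if c s < q then ENNReal.ofReal (Real.exp (-s)) else 0) =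
          (Iio (x ^ 2 * q)).indicator (fun s => ENNReal.ofReal (Real.exp (-s))) s := by
        intro s hs
        have hs' : (0:ℝ) < s := hs
        rw [Set.indicator_apply, hck s hs']
        have h3 : s / x ^ 2 < q ↔ s ∈ Iio (x ^ 2 * q) := by
          rw [Set.mem_Iio, div_lt_iff₀ (by positivity), mul_comm q]
        simp only [h3]
      rw [setLIntegral_congr_fun measurableSet_Ioi h2, setLIntegral_indicator measurableSet_Iio,
        Set.Iio_inter_Ioi,
        ← ofReal_integral_eq_lintegral_ofReal
          ((integrableOn_exp_neg_Ioi 0).mono_set Ioo_subset_Ioi_self)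
          (by filter_upwards with s using (Real.exp_pos _).le)]
      rw [← integral_Ioc_eq_integral_Ioo, ← intervalIntegral.integral_of_le hxq.le]
      congr 1
      have h4 : ∀ s ∈ uIcc (0:ℝ) (x ^ 2 * q), HasDerivAt (fun s => -Real.exp (-s))
          (Real.exp (-s)) s := by
        intro s _
        have h5 : HasDerivAt (fun s : ℝ => Real.exp (-s)) (Real.exp (-s) * (-1)) s :=
          ((hasDerivAt_id s).neg).exp
        exact h5.fun_neg.congr_deriv (by ring)
      rw [intervalIntegral.integral_eq_sub_of_hasDerivAt h4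
        (Continuous.intervalIntegrable (by fun_prop) _ _)]
      rw [neg_zero, Real.exp_zero]
      ring)
  rw [← (repb x hx).2, ← hkey]
  rfl

end PkGMB

end EC237.PB
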